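import Pool.Agent.H68.GHY.Targets
import Pool.Agent.H19.GZ.LBas

/-! # Row CLD of the board ghy: matrices seen by the kernel at the same points are close -/

set_option autoImplicit false

open MeasureTheory Pool.Agent.H34.GM Pool.Agent.H34.GZ Pool.Agent.H68.GHY Pool.Agent.H19.GZ

namespace Pool.Agent.H73.GHY

lemma det_cR {m : ℕ} (γ : ZM m) : |(cR γ).det| = (γ.det.natAbs : ℝ) := by
  have h : (cR γ).det = ((γ.det : ℤ) : ℝ) := by
    unfold cR
    exact ((Int.castRingHom ℝ).map_det γ).symm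
  rw [h, ← Int.cast_abs, Nat.cast_natAbs]

lemma exp_sub_le {d : ℝ} (hd : 0 < d) (hd2 : d ≤ 1 / 2) : Real.exp d ≤ 1 + 2 * d := by
  have h1 := Real.abs_exp_sub_one_sub_id_le (x := d) (by rw [abs_of_pos hd]; linarith)
  have h2 := (abs_le.mp h1).2
  nlinarith

lemma ratio_le {m : ℕ} (hm : 1 ≤ m) {p q x0 d : ℝ} (hq : 0 < q)
    (hd : 0 < d) (h1 : x0 < q ^ m) (h2 : p ^ m ≤ x0 * Real.exp d) : p / q ≤ Real.exp d := by
  rw [div_le_iff₀ hq]
  apply le_of_pow_le_pow_left₀ (n := m) (by omega) (by positivity)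
  have h3 : Real.exp d ≤ Real.exp d ^ m := by
    calc Real.exp d = Real.exp d ^ 1 := (pow_one _).symm
      _ ≤ Real.exp d ^ m := pow_le_pow_right₀ (Real.one_le_exp hd.le) hm
  rw [mul_pow]
  calc p ^ m ≤ x0 * Real.exp d := h2
    _ ≤ q ^ m * Real.exp d ^ m := mul_le_mul h1.le h3 (Real.exp_pos d).le (by positivity)
    _ = _ := by ring

theorem pf_CLD : T_CLD := by
  intro m hm
  obtain ⟨Y, hY⟩ : ∃ Y : ℝ, Y = (m.factorial : ℝ) * 2 ^ m := ⟨_, rfl⟩
  have hY0 : 0 < Y := by rw [hY]; positivity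
  have hm0 : (0 : ℝ) < m := by exact_mod_cast hm
  refine ⟨m * (m * (4 * m * Y + 2)), by positivity, ?_⟩
  intro γ γ' b h x0 d hb hh hx hd hd2 hw hw' hA hA' i
  have hdγ := det_cR γ
  have hdγ' := det_cR γ'
  obtain ⟨G, hG⟩ : ∃ G, G = cR γ := ⟨_, rfl⟩
  obtain ⟨G', hG'⟩ : ∃ G', G' = cR γ' := ⟨_, rfl⟩
  rw [← hG] at hA hdγ
  rw [← hG'] at hA' hdγ'
  have hGd : G.det ≠ 0 := by
    intro h0
    rw [h0, abs_zero] at hdγ
    have := hw.1
    linarith
  have hGd' : G'.det ≠ 0 := by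
    intro h0
    rw [h0, abs_zero] at hdγ'
    have := hw'.1
    linarith
  have haG := aN_pos G hGd
  have haG' := aN_pos G' hGd'
  have hah := aN_pos h hh
  have hab := aN_pos b hb
  obtain ⟨t, ht⟩ : ∃ t, t = (aN G)⁻¹ * aN h / aN b := ⟨_, rfl⟩
  obtain ⟨t', ht'⟩ : ∃ t', t' = (aN G')⁻¹ * aN h / aN b := ⟨_, rfl⟩
  have ht0 : 0 < t := by rw [ht]; positivity
  have ht0' : 0 < t' := by rw [ht']; positivity
  obtain ⟨A, hAd⟩ : ∃ A, A = kk (aN G) h G b := ⟨_, rfl⟩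
  obtain ⟨A', hAd'⟩ : ∃ A', A' = kk (aN G') h G' b := ⟨_, rfl⟩
  rw [← hAd] at hA
  rw [← hAd'] at hA'
  have hAe : A = t • (h⁻¹ * G * b) := by rw [hAd, kk_apply, ht]
  have hAe' : A' = t' • (h⁻¹ * G' * b) := by rw [hAd', kk_apply, ht']
  -- determinant of A
  have hdA : |A.det| = 1 := by
    rw [hAe, Matrix.det_smul, Fintype.card_fin, Matrix.det_mul, Matrix.det_mul,
      Matrix.det_nonsing_inv, Ring.inverse_eq_inv', abs_mul, abs_mul, abs_mul, abs_inv, abs_pow,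
      abs_of_pos ht0, ← aN_pow hm h, ← aN_pow hm G, ← aN_pow hm b, ht]
    rw [div_pow, mul_pow, inv_pow]
    field_simp
  have hdA0 : A.det ≠ 0 := by
    intro h0
    rw [h0, abs_zero] at hdA
    exact zero_ne_one hdA
  have hAu : IsUnit A.det := isUnit_iff_ne_zero.mpr hdA0
  have hAi : A * A⁻¹ = 1 := Matrix.mul_nonsing_inv A hAu
  have hiA : A⁻¹ * A = 1 := Matrix.nonsing_inv_mul A hAu
  have hhi : h * h⁻¹ = 1 := Matrix.mul_nonsing_inv h (isUnit_iff_ne_zero.mpr hh)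
  -- bounds of the entries
  have hA1 : ∀ i j, |A i j - (1 : Mat m) i j| ≤ d := fun i j => (abs_le_sz (A - 1) i j).trans hA
  have hA1' : ∀ i j, |A' i j - (1 : Mat m) i j| ≤ d :=
    fun i j => (abs_le_sz (A' - 1) i j).trans hA'
  have h1b : ∀ i j, |(1 : Mat m) i j| ≤ 1 := by
    intro i j
    rw [Matrix.one_apply]
    split_ifs <;> simp
  have hA2 : ∀ i j, |A i j| ≤ 2 := by
    intro i j
    have e1 := abs_add_le (A i j - (1 : Mat m) i j) ((1 : Mat m) i j)
    rw [sub_add_cancel] at e1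
    have e2 := hA1 i j
    have e3 := h1b i j
    linarith
  have hAA : ∀ i j, |(A' - A) i j| ≤ 2 * d := by
    intro i j
    have e0 : (A' - A) i j = (A' i j - (1 : Mat m) i j) - (A i j - (1 : Mat m) i j) := by
      rw [Matrix.sub_apply]
      ring
    rw [e0]
    have e1 := abs_sub (A' i j - (1 : Mat m) i j) (A i j - (1 : Mat m) i j)
    have e2 := hA1 i j
    have e3 := hA1' i j
    linarith
  have hAinv : ∀ i j, |A⁻¹ i j| ≤ Y := by
    intro i j
    rw [Matrix.inv_def, Ring.inverse_eq_inv', Matrix.smul_apply, smul_eq_mul, abs_mul, abs_inv,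
      hdA, inv_one, one_mul, hY]
    exact adj_bd A (by norm_num) hA2 i j
  have hW : ∀ i j, |(A⁻¹ * (A' - A)) i j| ≤ m * (Y * (2 * d)) :=
    fun i j => mul_bd A⁻¹ (A' - A) hY0.le hAinv hAA i j
  -- the ratio
  obtain ⟨ρ, hρ⟩ : ∃ ρ, ρ = t / t' := ⟨_, rfl⟩
  have hrat : ρ = aN G' / aN G := by
    rw [hρ, ht, ht']
    field_simp
  have hρ0 : 0 < ρ := by rw [hρ]; exact div_pos ht0 ht0'
  have p1 := aN_pow hm G
  have p2 := aN_pow hm G'
  rw [hdγ] at p1
  rw [hdγ'] at p2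
  have q1 : ρ ≤ Real.exp d := by
    rw [hrat]
    exact ratio_le hm haG hd (by rw [p1]; exact hw.1) (by rw [p2]; exact hw'.2)
  have q2 : ρ⁻¹ ≤ Real.exp d := by
    rw [hrat, inv_div]
    exact ratio_le hm haG' hd (by rw [p2]; exact hw'.1) (by rw [p1]; exact hw.2)
  have hρd : |ρ - 1| ≤ 2 * d := by
    rw [abs_le]
    constructor
    · have e1 : Real.exp (-d) ≤ ρ := by
        rw [Real.exp_neg]
        exact inv_le_of_inv_le₀ hρ0 q2
      have e2 := Real.add_one_le_exp (-d)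
      linarith
    · have e1 := exp_sub_le hd hd2
      linarith
  have hρ2 : |ρ| ≤ 2 := by
    rw [abs_of_pos hρ0]
    have := (abs_le.mp hρd).2
    linarith
  -- the identity
  have hid : G' * b = ρ • (G * b * (A⁻¹ * A')) := by
    have e1 : h * A = t • (G * b) := by
      rw [hAe, Matrix.mul_smul, ← Matrix.mul_assoc, ← Matrix.mul_assoc, hhi, Matrix.one_mul]
    have e2 : h * A' = t' • (G' * b) := by
      rw [hAe', Matrix.mul_smul, ← Matrix.mul_assoc, ← Matrix.mul_assoc, hhi, Matrix.one_mul]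
    have e3 : G * b = t⁻¹ • (h * A) := by
      rw [e1, smul_smul, inv_mul_cancel₀ ht0.ne', one_smul]
    rw [e3, Matrix.smul_mul, smul_smul, ← Matrix.mul_assoc, Matrix.mul_assoc h A A⁻¹, hAi,
      Matrix.mul_one, e2, smul_smul, hρ]
    have e4 : t / t' * t⁻¹ * t' = 1 := by field_simp
    rw [e4, one_smul]
  obtain ⟨E, hE⟩ : ∃ E, E = ρ • (A⁻¹ * A') - 1 := ⟨_, rfl⟩
  have hE2 : E = ρ • (A⁻¹ * (A' - A)) + (ρ - 1) • (1 : Mat m) := by
    rw [hE, Matrix.mul_sub, hiA, smul_sub, sub_smul, one_smul]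
    abel
  have hEb : ∀ i j, |E i j| ≤ d * (4 * m * Y + 2) := by
    intro i j
    rw [hE2, Matrix.add_apply, Matrix.smul_apply, Matrix.smul_apply, smul_eq_mul, smul_eq_mul]
    refine (abs_add_le _ _).trans ?_
    rw [abs_mul, abs_mul]
    have e1 : |ρ| * |(A⁻¹ * (A' - A)) i j| ≤ 2 * (m * (Y * (2 * d))) :=
      mul_le_mul hρ2 (hW i j) (abs_nonneg _) (by norm_num)
    have e2 : |ρ - 1| * |(1 : Mat m) i j| ≤ 2 * d * 1 :=
      mul_le_mul hρd (h1b i j) (abs_nonneg _) (by positivity)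
    linarith
  -- rows
  have hrow : ∀ (δ : ZM m), vb (δ i) b = (cR δ * b) i := by
    intro δ
    unfold vb
    funext j
    rw [Matrix.mul_apply]
    rfl
  have hsub : cR (γ' - γ) = G' - G := by
    rw [hG, hG']
    unfold cR
    ext s u
    simp
  have e5 : (cR (γ' - γ) * b) i = Matrix.vecMul ((G * b) i) E := by
    have e6 : cR (γ' - γ) * b = G * b * E := by
      rw [hsub, Matrix.sub_mul, hid, hE, Matrix.mul_sub, Matrix.mul_one, Matrix.mul_smul]
    rw [e6]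
    funext j
    rw [Matrix.mul_apply]
    rfl
  rw [hrow (γ' - γ), hrow γ, ← hG, e5]
  have h6 := rowN_vecMul ((G * b) i) E (by positivity) hEb
  calc rowN (Matrix.vecMul ((G * b) i) E)
      ≤ m * (m * (d * (4 * m * Y + 2))) * rowN ((G * b) i) := h6
    _ = _ := by ring

end Pool.Agent.H73.GHY
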